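import Pool.Agent.Lib.MP_245eb3_an.SI.Fusion
import Pool.Agent.Lib.MP_245eb3_an.Weak

/-!
Bounded additive vector valued set functions with uniformly separated values on a ring with the
subsequential interpolation property: their ranges contain uniformly discrete sets which are
not Borel sets of the weak topology.
-/

set_option autoImplicit false

open Set
open scoped MeasureTheory
open Pool.Agent.Lib.WeakBorel

namespace Pool.Agent.Lib.MP_245eb3_an.SI

universe u v

/-- A function on the subsets of `ℕ` which changes when one point is added. -/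
theorem exists_parity : ∃ χ : Set ℕ → Prop, ∀ Y n, n ∉ Y → (χ (Y ∪ {n}) ↔ ¬ χ Y) := by
  classical
  let ι : (ℕ →₀ ZMod 2) →ₗ[ZMod 2] (ℕ → ZMod 2) := Finsupp.lcoeFun
  have hι : LinearMap.ker ι = ⊥ := by
    rw [LinearMap.ker_eq_bot]
    exact DFunLike.coe_injective
  obtain ⟨g, hg⟩ := ι.exists_leftInverse_of_injective hι
  let φ : (ℕ → ZMod 2) → ZMod 2 := fun f => (g f).sum fun _ a => a
  have hadd : ∀ f h, φ (f + h) = φ f + φ h := by
    intro f h
    simp only [φ, map_add]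
    rw [Finsupp.sum_add_index'] <;> simp
  have hsingle : ∀ n, φ (Pi.single n 1) = 1 := by
    intro n
    have h1 : ι (Finsupp.single n 1) = Pi.single n 1 := by
      ext m
      simp only [ι, Finsupp.lcoeFun_apply]
      rw [Finsupp.single_eq_pi_single]
    have h2 : g (ι (Finsupp.single n 1)) = Finsupp.single n 1 := by
      have := LinearMap.congr_fun hg (Finsupp.single n 1)
      simpa using this
    simp only [φ]
    rw [← h1, h2]
    simp
  let I : Set ℕ → ℕ → ZMod 2 := fun Y => Y.indicator fun _ => 1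
  refine ⟨fun Y => φ (I Y) = 1, ?_⟩
  intro Y n hn
  have h1 : I (Y ∪ {n}) = I Y + Pi.single n 1 := by
    ext m
    by_cases hm : m = n
    · subst hm
      simp [I, hn]
    · by_cases hmY : m ∈ Y
      · simp [I, hm, hmY]
      · simp [I, hm, hmY]
  have h2 : φ (I (Y ∪ {n})) = φ (I Y) + 1 := by
    rw [h1, hadd, hsingle]
  have h3 : ∀ t : ZMod 2, (t + 1 = 1 ↔ ¬ t = 1) := by decide
  show φ (I (Y ∪ {n})) = 1 ↔ ¬ φ (I Y) = 1
  rw [h2]
  exact h3 _

/-- Basic neighbourhoods of the weak topology. -/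
theorem weak_nhds {E : Type v} [NormedAddCommGroup E] [NormedSpace ℝ E]
    {U : Set (WeakSpace ℝ E)} (hU : IsOpen U) {w : E} (hw : toWeakSpace ℝ E w ∈ U) :
    ∃ (s : Finset (E →L[ℝ] ℝ)) (ε : ℝ), 0 < ε ∧
      ∀ w' : E, (∀ φ ∈ s, |φ w' - φ w| < ε) → toWeakSpace ℝ E w' ∈ U := by
  classical
  obtain ⟨V, hV, hVU⟩ := isOpen_induced_iff.mp hU
  rw [isOpen_pi_iff] at hV
  rw [← hVU] at hw
  obtain ⟨s, u, hu, hsub⟩ := hV _ hw
  have h1 : ∀ φ : E →L[ℝ] ℝ, ∃ ε : ℝ, 0 < ε ∧ (φ ∈ s → ∀ t : ℝ, |t - φ w| < ε → t ∈ u φ) := by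
    intro φ
    by_cases hφ : φ ∈ s
    · obtain ⟨h2, h3⟩ := hu φ hφ
      obtain ⟨ε, hε, hball⟩ := Metric.isOpen_iff.mp h2 _ h3
      refine ⟨ε, hε, fun _ t ht => hball ?_⟩
      rw [Metric.mem_ball, Real.dist_eq]
      exact ht
    · exact ⟨1, one_pos, fun h => absurd h hφ⟩
  choose ε hε hεu using h1
  rcases s.eq_empty_or_nonempty with rfl | hs
  · refine ⟨∅, 1, one_pos, ?_⟩
    intro w' _
    rw [← hVU]
    apply hsub
    simp
  · refine ⟨s, s.inf' hs ε, ?_, ?_⟩
    · rw [Finset.lt_inf'_iff]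
      exact fun φ _ => hε φ
    · intro w' hw'
      rw [← hVU]
      apply hsub
      intro φ hφ
      apply hεu φ hφ
      exact lt_of_lt_of_le (hw' φ hφ) (Finset.inf'_le _ hφ)

variable {Ω : Type u} {E : Type v} [NormedAddCommGroup E] [NormedSpace ℝ E]

/-- Preimages of weakly open sets are decided. -/
theorem decided_of_isOpen {R : Set (Set Ω)} (hR : RingSI R) {o : ℕ → Ω}
    (ho : Function.Injective o) (hoR : ∀ n, {o n} ∈ R) {e : Set Ω → E}
    (hadd : ∀ s ∈ R, ∀ t ∈ R, Disjoint s t → e (s ∪ t) = e s + e t)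
    {C : ℝ} (hbd : ∀ s ∈ R, ‖e s‖ ≤ C) {U : Set (WeakSpace ℝ E)} (hU : IsOpen U) :
    Decided R o {z | toWeakSpace ℝ E (e z) ∈ U} := by
  intro a x hc
  by_cases h : ∃ z ∈ R, z \ a = x ∧ toWeakSpace ℝ E (e z) ∈ U
  · obtain ⟨z, hz, hza, hzU⟩ := h
    obtain ⟨s, ε, hε, hs⟩ := weak_nhds hU hzU
    obtain ⟨a', ha', ha'a, hsm⟩ := small_finset hR ho hoR s (ν := fun φ y => φ (e y))
      (fun φ s hs t ht hst => by rw [hadd s hs t ht hst, map_add])
      (fun φ => ⟨‖φ‖ * C, fun s hs => by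
        rw [← Real.norm_eq_abs]
        exact (φ.le_opNorm _).trans (mul_le_mul_of_nonneg_left (hbd s hs) (norm_nonneg _))⟩)
      (show (0 : ℝ) < ε / 3 by positivity) hc.1
    refine ⟨a', z \ a', ⟨ha', hR.diff _ hz _ ha'.1, disjoint_sdiff_right⟩, ha'a, ?_, Or.inl ?_⟩
    · rw [← hza]
      ext t
      have := @ha'a t
      simp only [mem_sdiff]
      tauto
    · intro z' hz' hzz'
      apply hs
      intro φ hφ
      have h1 : e z = e (z \ a') + e (z ∩ a') := by
        rw [← hadd _ (hR.diff _ hz _ ha'.1) _ (hR.inter hz ha'.1)]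
        · rw [sdiff_union_inter]
        · exact disjoint_sdiff_inter
      have h2 : e z' = e (z \ a') + e (z' ∩ a') := by
        rw [← hzz', ← hadd _ (hR.diff _ hz' _ ha'.1) _ (hR.inter hz' ha'.1)]
        · rw [sdiff_union_inter]
        · exact disjoint_sdiff_inter
      have h3 := hsm φ hφ _ (hR.inter hz ha'.1) inter_subset_right
      have h4 := hsm φ hφ _ (hR.inter hz' ha'.1) inter_subset_right
      rw [h1, h2, map_add, map_add]
      rw [abs_le] at h3 h4
      rw [abs_lt]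
      constructor <;> linarith [h3.1, h3.2, h4.1, h4.2]
  · push Not at h
    exact ⟨a, x, hc, Subset.rfl, hc.sdiff_eq, Or.inr h⟩

/-- Preimages of weakly Borel sets are decided. -/
theorem decided_of_borel {R : Set (Set Ω)} (hR : RingSI R) {o : ℕ → Ω}
    (ho : Function.Injective o) (hoR : ∀ n, {o n} ∈ R) {e : Set Ω → E}
    (hadd : ∀ s ∈ R, ∀ t ∈ R, Disjoint s t → e (s ∪ t) = e s + e t)
    {C : ℝ} (hbd : ∀ s ∈ R, ‖e s‖ ≤ C) {D : Set E} (hD : MeasurableSet[wBorel E] D) :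
    Decided R o {z | e z ∈ D} := by
  obtain ⟨B, hB, rfl⟩ := hD
  have h1 : borel (WeakSpace ℝ E) ≤
      MeasurableSpace.map (fun z => toWeakSpace ℝ E (e z)) (decidedSpace hR ho hoR) := by
    apply MeasurableSpace.generateFrom_le
    intro U hU
    exact decided_of_isOpen hR ho hoR hadd hbd hU
  exact h1 B hB

/-- The abstract theorem. -/
theorem main {R : Set (Set Ω)} (hR : RingSI R) {o : ℕ → Ω}
    (ho : Function.Injective o) (hoR : ∀ n, {o n} ∈ R) {e : Set Ω → E}
    (hadd : ∀ s ∈ R, ∀ t ∈ R, Disjoint s t → e (s ∪ t) = e s + e t)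
    {C : ℝ} (hbd : ∀ s ∈ R, ‖e s‖ ≤ C) {c : ℝ} (hc : 0 < c)
    (hsep : ∀ s ∈ R, ∀ t ∈ R, s ≠ t → c ≤ ‖e s - e t‖) :
    ∃ D : Set E, (∃ δ > 0, ∀ x ∈ D, ∀ y ∈ D, x ≠ y → δ ≤ ‖x - y‖) ∧
      ¬ MeasurableSet[wBorel E] D := by
  obtain ⟨χ, hχ⟩ := exists_parity
  have hinj : ∀ s ∈ R, ∀ t ∈ R, e s = e t → s = t := by
    intro s hs t ht h
    by_contra hne
    have := hsep s hs t ht hne
    rw [h, sub_self, norm_zero] at this
    linarith
  refine ⟨{w | ∃ z ∈ R, χ (tr o z) ∧ e z = w}, ⟨c, hc, ?_⟩, ?_⟩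
  · rintro _ ⟨x, hx, -, rfl⟩ _ ⟨y, hy, -, rfl⟩ hne
    exact hsep x hx y hy fun h => hne (by rw [h])
  · intro hD
    obtain ⟨a, ha⟩ := exists_region hR ho hoR
    obtain ⟨a', x', hc', -, -, h⟩ := decided_of_borel hR ho hoR hadd hbd hD a ∅
      ⟨ha, hR.empty, disjoint_bot_right⟩
    have hW : ∀ z ∈ R, (e z ∈ {w | ∃ z ∈ R, χ (tr o z) ∧ e z = w} ↔ χ (tr o z)) := by
      intro z hz
      constructor
      · rintro ⟨z', hz', h1, h2⟩
        rwa [hinj z' hz' z hz h2] at h1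
      · intro h1
        exact ⟨z, hz, h1, rfl⟩
    obtain ⟨n, hn⟩ := hc'.1.2.nonempty
    have hdis := hc'.2.2
    rw [Set.disjoint_left] at hdis
    have hnx : n ∉ tr o x' := fun h => hdis hn h
    have hx1 : x' \ a' = x' := hc'.sdiff_eq
    have hx2R : x' ∪ {o n} ∈ R := hR.union _ hc'.2.1 _ (hoR n)
    have hx2 : (x' ∪ {o n}) \ a' = x' := by
      ext t
      have h1 := @hdis t
      have h2 : t = o n → t ∈ a' := by
        rintro rfl
        exact hn
      simp only [mem_sdiff, mem_union, mem_singleton_iff]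
      tauto
    have htr : tr o (x' ∪ {o n}) = tr o x' ∪ {n} := by
      ext m
      constructor
      · rintro (h1 | h1)
        · exact Or.inl h1
        · exact Or.inr (ho h1)
      · rintro (h1 | h1)
        · exact Or.inl h1
        · rw [mem_singleton_iff] at h1
          subst h1
          exact Or.inr rfl
    have hflip := hχ (tr o x') n hnx
    rcases h with h | h
    · have h1 := (hW _ hc'.2.1).mp (h x' hc'.2.1 hx1)
      have h2 := (hW _ hx2R).mp (h _ hx2R hx2)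
      rw [htr, hflip] at h2
      exact h2 h1
    · have h1 : ¬ χ (tr o x') := fun h3 => h x' hc'.2.1 hx1 ((hW _ hc'.2.1).mpr h3)
      have h2 : ¬ χ (tr o (x' ∪ {o n})) := fun h3 => h _ hx2R hx2 ((hW _ hx2R).mpr h3)
      rw [htr, hflip] at h2
      exact h2 h1

end Pool.Agent.Lib.MP_245eb3_an.SI
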