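import Pool.Agent.Lib.MP_245eb3_an.SI.Vector

/-!
Application to compact spaces whose clopen sets have the subsequential interpolation property,
and to `ℓ^∞`.
-/

set_option autoImplicit false

open Set
open scoped MeasureTheory BoundedContinuousFunction
open Pool.Agent.Lib.WeakBorel

namespace Pool.Agent.Lib.MP_245eb3_an.SI

universe u v

/-- The clopen sets of `L` have the subsequential interpolation property: if the clopen sets
`a n` are pairwise disjoint and disjoint from the clopen sets `b m`, there are an infinite set
`M` of natural numbers and a clopen set `c` which contains `a n` for `n ∈ M` and is disjoint from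
all other `a n` and from all `b m`. -/
def ClopenSI (L : Type u) [TopologicalSpace L] : Prop :=
  ∀ a b : ℕ → Set L, (∀ n, IsClopen (a n)) → (∀ n, IsClopen (b n)) →
    (∀ i j, i ≠ j → Disjoint (a i) (a j)) → (∀ i j, Disjoint (a i) (b j)) →
    ∃ M : Set ℕ, M.Infinite ∧ ∃ c, IsClopen c ∧ (∀ n ∈ M, a n ⊆ c) ∧
      (∀ n, n ∉ M → Disjoint (a n) c) ∧ ∀ m, Disjoint (b m) c

section Ind

variable {L : Type u} [TopologicalSpace L]

open Classical in
/-- The characteristic function of a clopen set (`0` if the set is not clopen). -/
noncomputable def ind (s : Set L) : C(L, ℝ) :=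
  if h : IsClopen s then ⟨s.indicator fun _ => 1, h.continuous_indicator continuous_const⟩ else 0

theorem ind_apply {s : Set L} (hs : IsClopen s) (t : L) :
    ind s t = s.indicator (fun _ => (1 : ℝ)) t := by
  unfold ind
  rw [dif_pos hs]
  rfl

theorem ind_union {s t : Set L} (hs : IsClopen s) (ht : IsClopen t) (hst : Disjoint s t) :
    ind (s ∪ t) = ind s + ind t := by
  ext x
  rw [ContinuousMap.add_apply, ind_apply hs, ind_apply ht, ind_apply (hs.union ht),
    indicator_union_of_disjoint hst]

variable [CompactSpace L]

theorem norm_ind_le {s : Set L} (hs : IsClopen s) : ‖ind s‖ ≤ 1 := by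
  rw [ContinuousMap.norm_le _ zero_le_one]
  intro x
  rw [ind_apply hs]
  by_cases hx : x ∈ s
  · simp [hx]
  · simp [hx]

theorem one_le_norm_ind_sub {s t : Set L} (hs : IsClopen s) (ht : IsClopen t) (hne : s ≠ t) :
    1 ≤ ‖ind s - ind t‖ := by
  obtain ⟨x, hx⟩ : ∃ x, ¬ (x ∈ s ↔ x ∈ t) := by
    by_contra hcon
    push Not at hcon
    exact hne (Set.ext hcon)
  have h1 := ContinuousMap.norm_coe_le_norm (ind s - ind t) x
  refine le_trans ?_ h1
  rw [ContinuousMap.sub_apply, ind_apply hs, ind_apply ht]
  by_cases hxs : x ∈ s
  · have hxt : x ∉ t := fun h => hx ⟨fun _ => h, fun _ => hxs⟩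
    simp [hxs, hxt]
  · have hxt : x ∈ t := by
      by_contra hcon
      exact hx ⟨fun h => absurd h hxs, fun h => absurd h hcon⟩
    simp [hxs, hxt]

end Ind

section Collapse

variable {L : Type u}

open Classical in
/-- Collapse each `d n` to the point `o n`. -/
noncomputable def col (d : ℕ → Set L) (o : ℕ → L) (t : L) : L :=
  if h : ∃ n, t ∈ d n then o h.choose else t

theorem col_of_mem {d : ℕ → Set L} {o : ℕ → L} (hd : ∀ i j, i ≠ j → Disjoint (d i) (d j))
    {n : ℕ} {t : L} (ht : t ∈ d n) : col d o t = o n := by
  have h : ∃ n, t ∈ d n := ⟨n, ht⟩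
  unfold col
  rw [dif_pos h]
  congr 1
  by_contra hne
  exact (Set.disjoint_left.mp (hd _ _ hne)) h.choose_spec ht

theorem col_of_notMem {d : ℕ → Set L} {o : ℕ → L} {t : L} (ht : ∀ n, t ∉ d n) :
    col d o t = t := by
  unfold col
  rw [dif_neg]
  rintro ⟨n, hn⟩
  exact ht n hn

end Collapse

/-- The theorem for compact spaces `L` with subsequential interpolation of clopen sets, and
spaces which contain `C(L)`. -/
theorem clopen_case {L : Type u} [TopologicalSpace L] [CompactSpace L] (hL : ClopenSI L)
    {d : ℕ → Set L} (hd : ∀ n, IsClopen (d n)) (hne : ∀ n, (d n).Nonempty)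
    (hdis : ∀ i j, i ≠ j → Disjoint (d i) (d j))
    {G : Type v} [NormedAddCommGroup G] [NormedSpace ℝ G]
    (J : C(L, ℝ) →L[ℝ] G) {c : ℝ} (hc : 0 < c) (hJ : ∀ y, c * ‖y‖ ≤ ‖J y‖) :
    ∃ D : Set G, (∃ δ > 0, ∀ x ∈ D, ∀ y ∈ D, x ≠ y → δ ≤ ‖x - y‖) ∧
      ¬ MeasurableSet[wBorel G] D := by
  classical
  choose o ho using hne
  have hoinj : Function.Injective o := by
    intro i j hij
    by_contra hne
    exact (Set.disjoint_left.mp (hdis i j hne)) (ho i) (hij ▸ ho j)
  let φ : L → L := col d o
  have hφo : ∀ n, φ (o n) = o n := fun n => col_of_mem hdis (ho n)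
  let R : Set (Set L) := {y | y ⊆ range φ ∧ IsClopen (φ ⁻¹' y)}
  have himg : ∀ y ∈ R, φ '' (φ ⁻¹' y) = y := fun y hy => image_preimage_eq_of_subset hy.1
  have hR : RingSI R := by
    refine ⟨⟨empty_subset _, ?_⟩, ?_, ?_, ?_⟩
    · rw [preimage_empty]
      exact isClopen_empty
    · intro s hs t ht
      exact ⟨union_subset hs.1 ht.1, hs.2.union ht.2⟩
    · intro s hs t ht
      exact ⟨sdiff_subset.trans hs.1, hs.2.diff ht.2⟩
    · intro a b ha hb haa hab
      -- the second family, with the `d k` which do not meet the first family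
      let b' : ℕ → Set L := fun m =>
        if m % 2 = 0 then φ ⁻¹' (b (m / 2))
        else if (∀ n, Disjoint (φ ⁻¹' (a n)) (d (m / 2))) then d (m / 2) else ∅
      obtain ⟨M, hM, e, he, h1, h2, h3⟩ := hL (fun n => φ ⁻¹' (a n)) b' (fun n => (ha n).2)
        (by
          intro m
          simp only [b']
          split_ifs
          · exact (hb _).2
          · exact hd _
          · exact isClopen_empty)
        (fun i j hij => (haa i j hij).preimage φ)
        (by
          intro i m
          simp only [b']
          split_ifs with h4 h5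
          · exact (hab i _).preimage φ
          · exact h5 i
          · exact disjoint_bot_right)
      simp only [Set.disjoint_left] at h2 h3
      -- `e` is saturated
      have hsat : ∀ k t, t ∈ d k → t ∈ e → d k ⊆ e := by
        intro k t ht hte
        by_cases h4 : ∀ n, Disjoint (φ ⁻¹' (a n)) (d k)
        · exfalso
          have h5 : b' (2 * k + 1) = d k := by
            simp only [b']
            have h6 : (2 * k + 1) % 2 = 1 := by omega
            have h7 : (2 * k + 1) / 2 = k := by omega
            rw [h6, h7, if_neg one_ne_zero, if_pos h4]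
          exact h3 (2 * k + 1) (h5 ▸ ht) hte
        · push Not at h4
          obtain ⟨n, hn⟩ := h4
          rw [Set.not_disjoint_iff] at hn
          obtain ⟨s, hs1, hs2⟩ := hn
          have h5 : d k ⊆ φ ⁻¹' (a n) := by
            intro r hr
            have h6 : φ s = o k := col_of_mem hdis hs2
            have h7 : φ r = o k := col_of_mem hdis hr
            rw [mem_preimage] at hs1 ⊢
            rw [h7, ← h6]
            exact hs1
          by_cases h6 : n ∈ M
          · exact h5.trans (h1 n h6)
          · exact absurd hte (h2 n h6 (h5 ht))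
      have hpre : φ ⁻¹' (φ '' e) = e := by
        apply Subset.antisymm
        · rintro t ⟨s, hs, hst⟩
          by_cases h4 : ∃ k, t ∈ d k
          · obtain ⟨k, hk⟩ := h4
            by_cases h5 : ∃ j, s ∈ d j
            · obtain ⟨j, hj⟩ := h5
              have h6 : φ s = o j := col_of_mem hdis hj
              have h7 : φ t = o k := col_of_mem hdis hk
              rw [h6, h7] at hst
              have := hoinj hst
              subst this
              exact hsat j s hj hs hk
            · push Not at h5
              have h6 : φ s = s := col_of_notMem h5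
              have h7 : φ t = o k := col_of_mem hdis hk
              rw [h6, h7] at hst
              exact absurd (hst ▸ ho k) (h5 k)
          · push Not at h4
            have h7 : φ t = t := col_of_notMem h4
            by_cases h5 : ∃ j, s ∈ d j
            · obtain ⟨j, hj⟩ := h5
              have h6 : φ s = o j := col_of_mem hdis hj
              rw [h6, h7] at hst
              exact absurd (hst ▸ ho j) (h4 j)
            · push Not at h5
              have h6 : φ s = s := col_of_notMem h5
              rw [h6, h7] at hst
              exact hst ▸ hs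
        · exact subset_preimage_image φ e
      refine ⟨M, hM, φ '' e, ⟨image_subset_range _ _, ?_⟩, ?_, ?_, ?_⟩
      · rw [hpre]
        exact he
      · intro n hn
        rw [← himg _ (ha n)]
        exact image_mono (h1 n hn)
      · intro n hn
        rw [Set.disjoint_left]
        rintro _ h4 ⟨s, hs, rfl⟩
        exact h2 n hn h4 hs
      · intro m
        rw [Set.disjoint_left]
        rintro _ h4 ⟨s, hs, rfl⟩
        have h5 : b' (2 * m) = φ ⁻¹' (b m) := by
          simp only [b']
          have h6 : (2 * m) % 2 = 0 := by omega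
          have h7 : (2 * m) / 2 = m := by omega
          rw [h6, h7, if_pos rfl]
        exact h3 (2 * m) (h5 ▸ h4) hs
  have hoR : ∀ n, {o n} ∈ R := by
    intro n
    refine ⟨?_, ?_⟩
    · rintro _ rfl
      exact ⟨o n, hφo n⟩
    · have h1 : φ ⁻¹' {o n} = d n := by
        ext t
        rw [mem_preimage, mem_singleton_iff]
        constructor
        · intro h
          by_cases h4 : ∃ k, t ∈ d k
          · obtain ⟨k, hk⟩ := h4
            have h7 : φ t = o k := col_of_mem hdis hk
            rw [h7] at h
            have := hoinj h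
            subst this
            exact hk
          · push Not at h4
            have h7 : φ t = t := col_of_notMem h4
            rw [h7] at h
            rw [h]
            exact ho n
        · intro h
          exact col_of_mem hdis h
      rw [h1]
      exact hd n
  refine main hR hoinj hoR (e := fun y => J (ind (φ ⁻¹' y))) (C := ‖J‖) ?_ ?_ hc ?_
  · intro s hs t ht hst
    rw [preimage_union, ind_union hs.2 ht.2 (hst.preimage φ), map_add]
  · intro s hs
    calc ‖J (ind (φ ⁻¹' s))‖ ≤ ‖J‖ * ‖ind (φ ⁻¹' s)‖ := J.le_opNorm _
      _ ≤ ‖J‖ * 1 := by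
        gcongr
        exact norm_ind_le hs.2
      _ = ‖J‖ := mul_one _
  · intro s hs t ht hst
    have hne : φ ⁻¹' s ≠ φ ⁻¹' t := by
      intro h
      apply hst
      rw [← himg s hs, ← himg t ht, h]
    calc c = c * 1 := (mul_one c).symm
      _ ≤ c * ‖ind (φ ⁻¹' s) - ind (φ ⁻¹' t)‖ := by
        gcongr
        exact one_le_norm_ind_sub hs.2 ht.2 hne
      _ ≤ ‖J (ind (φ ⁻¹' s) - ind (φ ⁻¹' t))‖ := hJ _
      _ = ‖J (ind (φ ⁻¹' s)) - J (ind (φ ⁻¹' t))‖ := by rw [map_sub]

end Pool.Agent.Lib.MP_245eb3_an.SI
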