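import Pool.Agent.Lib.MP_245eb3_an.SI.Vector

/-!
Application to spaces containing `ℓ^∞` and to compact spaces `L` such that every sequence of
pairwise disjoint functions `0 ≤ f n ≤ 1` in `C(L)` has an infinite subfamily with a supremum.
-/

set_option autoImplicit false

open Set
open scoped MeasureTheory BoundedContinuousFunction
open Pool.Agent.Lib.WeakBorel

namespace Pool.Agent.Lib.MP_245eb3_an.SI

universe u v

section LInf

/-- The characteristic function of a set of natural numbers, as an element of `ℓ^∞`. -/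
noncomputable def chi (s : Set ℕ) : ℕ →ᵇ ℝ :=
  BoundedContinuousFunction.ofNormedAddCommGroupDiscrete (s.indicator fun _ => 1) 1 (by
    intro x
    by_cases hx : x ∈ s
    · simp [hx]
    · simp [hx])

theorem chi_apply (s : Set ℕ) (n : ℕ) : chi s n = s.indicator (fun _ => (1 : ℝ)) n := rfl

/-- The theorem for spaces containing `ℓ^∞`. -/
theorem linf_case {G : Type v} [NormedAddCommGroup G] [NormedSpace ℝ G]
    (J : (ℕ →ᵇ ℝ) →L[ℝ] G) {c : ℝ} (hc : 0 < c) (hJ : ∀ y, c * ‖y‖ ≤ ‖J y‖) :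
    ∃ D : Set G, (∃ δ > 0, ∀ x ∈ D, ∀ y ∈ D, x ≠ y → δ ≤ ‖x - y‖) ∧
      ¬ MeasurableSet[wBorel G] D := by
  have hR : RingSI (univ : Set (Set ℕ)) := by
    refine ⟨mem_univ _, fun _ _ _ _ => mem_univ _, fun _ _ _ _ => mem_univ _, ?_⟩
    intro a b _ _ _ hab
    refine ⟨univ, infinite_univ, ⋃ n, a n, mem_univ _, fun n _ => subset_iUnion a n,
      fun n hn => absurd (mem_univ n) hn, ?_⟩
    intro m
    rw [disjoint_iUnion_right]
    exact fun n => (hab n m).symm
  refine main hR (o := fun n => n) (fun _ _ h => h) (fun _ => mem_univ _)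
    (e := fun s => J (chi s)) (C := ‖J‖) ?_ ?_ hc ?_
  · intro s _ t _ hst
    rw [← map_add]
    congr 1
    ext n
    rw [BoundedContinuousFunction.add_apply, chi_apply, chi_apply, chi_apply,
      indicator_union_of_disjoint hst]
  · intro s _
    calc ‖J (chi s)‖ ≤ ‖J‖ * ‖chi s‖ := J.le_opNorm _
      _ ≤ ‖J‖ * 1 := by
        gcongr
        rw [BoundedContinuousFunction.norm_le zero_le_one]
        intro x
        rw [chi_apply]
        by_cases hx : x ∈ s
        · simp [hx]
        · simp [hx]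
      _ = ‖J‖ := mul_one _
  · intro s _ t _ hst
    have h1 : 1 ≤ ‖chi s - chi t‖ := by
      obtain ⟨x, hx⟩ : ∃ x, ¬ (x ∈ s ↔ x ∈ t) := by
        by_contra hcon
        push Not at hcon
        exact hst (Set.ext hcon)
      have h1 := (chi s - chi t).norm_coe_le_norm x
      refine le_trans ?_ h1
      rw [BoundedContinuousFunction.sub_apply, chi_apply, chi_apply]
      by_cases hxs : x ∈ s
      · have hxt : x ∉ t := fun h => hx ⟨fun _ => h, fun _ => hxs⟩
        simp [hxs, hxt]
      · have hxt : x ∈ t := by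
          by_contra hcon
          exact hx ⟨fun h => absurd h hxs, fun h => absurd h hcon⟩
        simp [hxs, hxt]
    calc c = c * 1 := (mul_one c).symm
      _ ≤ c * ‖chi s - chi t‖ := by gcongr
      _ ≤ ‖J (chi s - chi t)‖ := hJ _
      _ = ‖J (chi s) - J (chi t)‖ := by rw [map_sub]

end LInf

/-- Every sequence of pairwise disjoint functions `0 ≤ f n ≤ 1` in `C(L)` has an infinite
subfamily with a supremum in `C(L)`. -/
def FunSCP (L : Type u) [TopologicalSpace L] : Prop :=
  ∀ f : ℕ → C(L, ℝ), (∀ n, 0 ≤ f n ∧ f n ≤ 1) → (∀ i j, i ≠ j → f i * f j = 0) →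
    ∃ M : Set ℕ, M.Infinite ∧ ∃ g, IsLUB (f '' M) g

section Fun

variable {L : Type u} [TopologicalSpace L]

/-- `g` is the supremum of `0` and of the functions `f n`, `n ∈ X`. -/
def Sup (f : ℕ → C(L, ℝ)) (X : Set ℕ) (g : C(L, ℝ)) : Prop :=
  0 ≤ g ∧ (∀ n ∈ X, f n ≤ g) ∧ ∀ h, 0 ≤ h → (∀ n ∈ X, f n ≤ h) → g ≤ h

theorem Sup.unique {f : ℕ → C(L, ℝ)} {X : Set ℕ} {g g' : C(L, ℝ)} (hg : Sup f X g)
    (hg' : Sup f X g') : g = g' :=
  le_antisymm (hg.2.2 _ hg'.1 hg'.2.1) (hg'.2.2 _ hg.1 hg.2.1)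

variable {f : ℕ → C(L, ℝ)}

theorem mul_zero_apply (hff : ∀ i j, i ≠ j → f i * f j = 0) {i j : ℕ} (hij : i ≠ j) (t : L) :
    f i t = 0 ∨ f j t = 0 := by
  have := congrArg (fun g : C(L, ℝ) => g t) (hff i j hij)
  simp only [ContinuousMap.mul_apply, ContinuousMap.zero_apply] at this
  exact mul_eq_zero.mp this

/-- The supremum over `X` is disjoint from `f m`, `m ∉ X`. -/
theorem Sup.disj (hf : ∀ n, 0 ≤ f n) (hff : ∀ i j, i ≠ j → f i * f j = 0)
    {X : Set ℕ} {g : C(L, ℝ)} (hg : Sup f X g) {m : ℕ} (hm : m ∉ X) (t : L) :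
    g t = 0 ∨ f m t = 0 := by
  have h0 : ∀ n t, 0 ≤ f n t := fun n t => hf n t
  have hg0 : ∀ t, 0 ≤ g t := fun t => hg.1 t
  have h1 : g ≤ g - g ⊓ f m := by
    apply hg.2.2
    · rw [ContinuousMap.le_def]
      intro t
      simp only [ContinuousMap.zero_apply, ContinuousMap.sub_apply, ContinuousMap.inf_apply]
      linarith [min_le_left (g t) (f m t)]
    · intro n hn
      rw [ContinuousMap.le_def]
      intro t
      have hnm : n ≠ m := fun h => hm (h ▸ hn)
      have h2 : f n t ≤ g t := hg.2.1 n hn t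
      simp only [ContinuousMap.sub_apply, ContinuousMap.inf_apply]
      rcases mul_zero_apply hff hnm t with h3 | h3
      · rw [h3]
        linarith [min_le_left (g t) (f m t)]
      · rw [h3, min_eq_right (hg0 t)]
        linarith
  have h2 : g t ≤ (g - g ⊓ f m) t := h1 t
  simp only [ContinuousMap.sub_apply, ContinuousMap.inf_apply] at h2
  have h3 : min (g t) (f m t) ≤ 0 := by linarith
  rcases min_le_iff.mp h3 with h4 | h4
  · exact Or.inl (le_antisymm h4 (hg0 t))
  · exact Or.inr (le_antisymm h4 (h0 m t))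

/-- Suprema over disjoint sets are disjoint. -/
theorem Sup.disj_sup (hf : ∀ n, 0 ≤ f n) (hff : ∀ i j, i ≠ j → f i * f j = 0)
    {X Y : Set ℕ} (hXY : Disjoint X Y) {g h : C(L, ℝ)} (hg : Sup f X g) (hh : Sup f Y h) (t : L) :
    g t = 0 ∨ h t = 0 := by
  have hg0 : ∀ t, 0 ≤ g t := fun t => hg.1 t
  have hh0 : ∀ t, 0 ≤ h t := fun t => hh.1 t
  have h1 : g ≤ g - g ⊓ h := by
    apply hg.2.2
    · rw [ContinuousMap.le_def]
      intro t
      simp only [ContinuousMap.zero_apply, ContinuousMap.sub_apply, ContinuousMap.inf_apply]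
      linarith [min_le_left (g t) (h t)]
    · intro n hn
      rw [ContinuousMap.le_def]
      intro t
      have hnY : n ∉ Y := fun h => (Set.disjoint_left.mp hXY) hn h
      have h2 : f n t ≤ g t := hg.2.1 n hn t
      simp only [ContinuousMap.sub_apply, ContinuousMap.inf_apply]
      rcases hh.disj hf hff hnY t with h3 | h3
      · rw [h3, min_eq_right (hg0 t)]
        linarith
      · rw [h3]
        linarith [min_le_left (g t) (h t)]
  have h2 : g t ≤ (g - g ⊓ h) t := h1 t
  simp only [ContinuousMap.sub_apply, ContinuousMap.inf_apply] at h2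
  have h3 : min (g t) (h t) ≤ 0 := by linarith
  rcases min_le_iff.mp h3 with h4 | h4
  · exact Or.inl (le_antisymm h4 (hg0 t))
  · exact Or.inr (le_antisymm h4 (hh0 t))

theorem Sup.empty : Sup f ∅ 0 :=
  ⟨le_refl _, fun n hn => absurd hn (notMem_empty n), fun _ hh _ => hh⟩

theorem Sup.singleton (hf : ∀ n, 0 ≤ f n) (n : ℕ) : Sup f {n} (f n) :=
  ⟨hf n, fun m hm => by rw [mem_singleton_iff.mp hm], fun _ _ hh => hh n rfl⟩

theorem Sup.union {X Y : Set ℕ} {g h : C(L, ℝ)} (hg : Sup f X g) (hh : Sup f Y h) :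
    Sup f (X ∪ Y) (g ⊔ h) := by
  refine ⟨le_trans hg.1 le_sup_left, ?_, ?_⟩
  · rintro n (hn | hn)
    · exact (hg.2.1 n hn).trans le_sup_left
    · exact (hh.2.1 n hn).trans le_sup_right
  · intro k hk hk2
    exact sup_le (hg.2.2 k hk fun n hn => hk2 n (Or.inl hn))
      (hh.2.2 k hk fun n hn => hk2 n (Or.inr hn))

theorem Sup.union_disjoint (hf : ∀ n, 0 ≤ f n) (hff : ∀ i j, i ≠ j → f i * f j = 0)
    {X Y : Set ℕ} (hXY : Disjoint X Y) {g h : C(L, ℝ)} (hg : Sup f X g) (hh : Sup f Y h) :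
    Sup f (X ∪ Y) (g + h) := by
  have h1 : g + h = g ⊔ h := by
    ext t
    rw [ContinuousMap.add_apply, ContinuousMap.sup_apply]
    have hg0 : 0 ≤ g t := hg.1 t
    have hh0 : 0 ≤ h t := hh.1 t
    rcases hg.disj_sup hf hff hXY hh t with h3 | h3
    · rw [h3, zero_add, max_eq_right hh0]
    · rw [h3, add_zero, max_eq_left hg0]
  rw [h1]
  exact hg.union hh

theorem Sup.sdiff (hf : ∀ n, 0 ≤ f n) (hff : ∀ i j, i ≠ j → f i * f j = 0)
    {X Y : Set ℕ} {g h : C(L, ℝ)} (hg : Sup f X g) (hh : Sup f Y h) :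
    Sup f (X \ Y) (g - g ⊓ h) := by
  have hg0 : ∀ t, 0 ≤ g t := fun t => hg.1 t
  have hh0 : ∀ t, 0 ≤ h t := fun t => hh.1 t
  refine ⟨?_, ?_, ?_⟩
  · rw [ContinuousMap.le_def]
    intro t
    simp only [ContinuousMap.zero_apply, ContinuousMap.sub_apply, ContinuousMap.inf_apply]
    linarith [min_le_left (g t) (h t)]
  · rintro n ⟨hnX, hnY⟩
    rw [ContinuousMap.le_def]
    intro t
    have h2 : f n t ≤ g t := hg.2.1 n hnX t
    simp only [ContinuousMap.sub_apply, ContinuousMap.inf_apply]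
    rcases hh.disj hf hff hnY t with h3 | h3
    · rw [h3, min_eq_right (hg0 t)]
      linarith
    · rw [h3]
      linarith [min_le_left (g t) (h t)]
  · intro k hk hk2
    have h1 : g ≤ k + g ⊓ h := by
      apply hg.2.2
      · rw [ContinuousMap.le_def]
        intro t
        have h5 : 0 ≤ k t := hk t
        simp only [ContinuousMap.zero_apply, ContinuousMap.add_apply,
          ContinuousMap.inf_apply]
        have h3 := le_min (hg0 t) (hh0 t)
        linarith
      · intro n hn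
        rw [ContinuousMap.le_def]
        intro t
        by_cases hnY : n ∈ Y
        · have h2 : f n t ≤ g t := hg.2.1 n hn t
          have h3 : f n t ≤ h t := hh.2.1 n hnY t
          have h4 := le_min h2 h3
          have h5 : 0 ≤ k t := hk t
          simp only [ContinuousMap.add_apply, ContinuousMap.inf_apply]
          linarith
        · have h2 : f n t ≤ k t := hk2 n ⟨hn, hnY⟩ t
          have h3 := le_min (hg0 t) (hh0 t)
          simp only [ContinuousMap.add_apply, ContinuousMap.inf_apply]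
          linarith
    rw [ContinuousMap.le_def]
    intro t
    have h2 : g t ≤ (k + g ⊓ h) t := h1 t
    simp only [ContinuousMap.add_apply, ContinuousMap.sub_apply,
      ContinuousMap.inf_apply] at h2 ⊢
    linarith

end Fun

/-- The theorem for infinite compact Hausdorff spaces `L` with `FunSCP`, and spaces which contain
`C(L)`. -/
theorem fun_case {L : Type u} [TopologicalSpace L] [CompactSpace L] [T2Space L] [Infinite L]
    (hL : FunSCP L) {G : Type v} [NormedAddCommGroup G] [NormedSpace ℝ G]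
    (J : C(L, ℝ) →L[ℝ] G) {c : ℝ} (hc : 0 < c) (hJ : ∀ y, c * ‖y‖ ≤ ‖J y‖) :
    ∃ D : Set G, (∃ δ > 0, ∀ x ∈ D, ∀ y ∈ D, x ≠ y → δ ≤ ‖x - y‖) ∧
      ¬ MeasurableSet[wBorel G] D := by
  classical
  -- disjoint functions with values in `[0, 1]` which take the value `1`
  obtain ⟨U, hUi, hUo, hUd⟩ := exists_seq_infinite_isOpen_pairwise_disjoint L
  choose p hp using fun n => (hUi n).nonempty
  have hU : ∀ n, ∃ f : C(L, ℝ), EqOn f 0 (U n)ᶜ ∧ EqOn f 1 {p n} ∧ ∀ x, f x ∈ Icc (0 : ℝ) 1 := by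
    intro n
    apply exists_continuous_zero_one_of_isClosed (hUo n).isClosed_compl isClosed_singleton
    rw [disjoint_singleton_right]
    exact fun h => h (hp n)
  choose f hf0 hf1 hf01 using hU
  have hf : ∀ n, 0 ≤ f n := fun n t => (hf01 n t).1
  have hf' : ∀ n, f n ≤ 1 := fun n t => (hf01 n t).2
  have hfp : ∀ n, f n (p n) = 1 := fun n => hf1 n rfl
  have hff : ∀ i j, i ≠ j → f i * f j = 0 := by
    intro i j hij
    ext t
    rw [ContinuousMap.mul_apply, ContinuousMap.zero_apply]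
    by_cases h1 : t ∈ U i
    · have h2 : t ∉ U j := fun h => (Set.disjoint_left.mp (hUd hij)) h1 h
      rw [hf0 j h2]
      simp
    · rw [hf0 i h1]
      simp
  let e : Set ℕ → C(L, ℝ) := fun X => if h : ∃ g, Sup f X g then h.choose else 0
  have he : ∀ {X : Set ℕ} {g : C(L, ℝ)}, Sup f X g → e X = g := by
    intro X g hg
    have h : ∃ g, Sup f X g := ⟨g, hg⟩
    simp only [e]
    rw [dif_pos h]
    exact h.choose_spec.unique hg
  have hle1 : ∀ {X : Set ℕ} {g : C(L, ℝ)}, Sup f X g → g ≤ 1 := by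
    intro X g hg
    apply hg.2.2
    · intro t
      exact zero_le_one
    · exact fun n _ => hf' n
  let R : Set (Set ℕ) := {X | ∃ g, Sup f X g}
  have hR : RingSI R := by
    refine ⟨⟨0, Sup.empty⟩, ?_, ?_, ?_⟩
    · rintro s ⟨g, hg⟩ t ⟨h, hh⟩
      exact ⟨_, hg.union hh⟩
    · rintro s ⟨g, hg⟩ t ⟨h, hh⟩
      exact ⟨_, hg.sdiff hf hff hh⟩
    · intro a b ha hb haa hab
      choose g hg using ha
      obtain ⟨M, hM, G', hG'⟩ := hL g
        (fun n => ⟨(hg n).1, hle1 (hg n)⟩)
        (by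
          intro i j hij
          ext t
          rw [ContinuousMap.mul_apply, ContinuousMap.zero_apply]
          exact mul_eq_zero.mpr ((hg i).disj_sup hf hff (haa i j hij) (hg j) t))
      refine ⟨M, hM, ⋃ n ∈ M, a n, ⟨G', ?_, ?_, ?_⟩, ?_, ?_, ?_⟩
      · obtain ⟨n, hn⟩ := hM.nonempty
        exact (hg n).1.trans (hG'.1 ⟨n, hn, rfl⟩)
      · intro m hm
        rw [mem_iUnion₂] at hm
        obtain ⟨n, hn, hmn⟩ := hm
        exact ((hg n).2.1 m hmn).trans (hG'.1 ⟨n, hn, rfl⟩)
      · intro h hh0 hh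
        apply hG'.2
        rintro _ ⟨n, hn, rfl⟩
        exact (hg n).2.2 h hh0 fun m hm => hh m (mem_iUnion₂.mpr ⟨n, hn, hm⟩)
      · intro n hn
        exact subset_biUnion_of_mem (u := a) hn
      · intro n hn
        rw [disjoint_iUnion₂_right]
        intro i hi
        exact haa n i fun h => hn (h ▸ hi)
      · intro m
        rw [disjoint_iUnion₂_right]
        intro i _
        exact (hab i m).symm
  refine main hR (o := fun n => n) (fun _ _ h => h) (fun n => ⟨_, Sup.singleton hf n⟩)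
    (e := fun s => J (e s)) (C := ‖J‖) ?_ ?_ hc ?_
  · rintro s ⟨g, hg⟩ t ⟨h, hh⟩ hst
    rw [he hg, he hh, he (hg.union_disjoint hf hff hst hh), map_add]
  · rintro s ⟨g, hg⟩
    rw [he hg]
    calc ‖J g‖ ≤ ‖J‖ * ‖g‖ := J.le_opNorm _
      _ ≤ ‖J‖ * 1 := by
        gcongr
        rw [ContinuousMap.norm_le _ zero_le_one]
        intro t
        have h1 : g t ≤ 1 := hle1 hg t
        have h2 : 0 ≤ g t := hg.1 t
        rw [Real.norm_eq_abs, abs_of_nonneg h2]
        exact h1
      _ = ‖J‖ := mul_one _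
  · rintro s ⟨g, hg⟩ t ⟨h, hh⟩ hst
    rw [he hg, he hh]
    have key : ∀ {s t : Set ℕ} {g h : C(L, ℝ)}, Sup f s g → Sup f t h → ∀ n, n ∈ s → n ∉ t →
        1 ≤ ‖g - h‖ := by
      intro s t g h hg hh n hns hnt
      have h1 := ContinuousMap.norm_coe_le_norm (g - h) (p n)
      refine le_trans ?_ h1
      have h2 : f n (p n) ≤ g (p n) := hg.2.1 n hns (p n)
      rw [hfp] at h2
      have h3 : h (p n) = 0 := by
        rcases hh.disj hf hff hnt (p n) with h3 | h3
        · exact h3
        · rw [hfp] at h3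
          exact absurd h3 one_ne_zero
      rw [ContinuousMap.sub_apply, h3, sub_zero, Real.norm_eq_abs]
      exact h2.trans (le_abs_self _)
    have h1 : 1 ≤ ‖g - h‖ := by
      obtain ⟨x, hx⟩ : ∃ x, ¬ (x ∈ s ↔ x ∈ t) := by
        by_contra hcon
        push Not at hcon
        exact hst (Set.ext hcon)
      by_cases hxs : x ∈ s
      · exact key hg hh x hxs fun h => hx ⟨fun _ => h, fun _ => hxs⟩
      · have hxt : x ∈ t := by
          by_contra hcon
          exact hx ⟨fun h => absurd h hxs, fun h => absurd h hcon⟩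
        rw [norm_sub_rev]
        exact key hh hg x hxt hxs
    calc c = c * 1 := (mul_one c).symm
      _ ≤ c * ‖g - h‖ := by gcongr
      _ ≤ ‖J (g - h)‖ := hJ _
      _ = ‖J g - J h‖ := by rw [map_sub]

end Pool.Agent.Lib.MP_245eb3_an.SI
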