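import Pool.Agent.Lib.MP_245eb3_an.SI.Ring

/-!
The fusion lemma: countable unions of decided sets are decided.
-/

set_option autoImplicit false

open Set

namespace Pool.Agent.Lib.MP_245eb3_an.SI

universe u v

variable {Ω : Type u}

theorem cone_mono {a a' x x' z : Set Ω} (ha : a' ⊆ a) (hx : x' \ a = x) (hz : z \ a' = x') :
    z \ a = x := by
  subst hx
  subst hz
  ext t
  simp only [mem_sdiff]
  have := @ha t
  tauto

theorem Cond.sdiff_eq {R : Set (Set Ω)} {o : ℕ → Ω} {a x : Set Ω} (h : Cond R o a x) :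
    x \ a = x := by
  have := h.2.2
  exact sdiff_eq_left.mpr this.symm

/-- One step of the fusion, for a finite family. -/
theorem step {R : Set (Set Ω)} (hR : RingSI R) {o : ℕ → Ω} {a0 x0 : Set Ω}
    (E : Set Ω → Set Ω → Prop)
    (hopen : ∀ a x a' x', E a x → Cond R o a' x' → a' ⊆ a → x' \ a = x → E a' x')
    (hdense : ∀ a x, Cond R o a x → a ⊆ a0 → x \ a0 = x0 →
      ∃ a' x', Cond R o a' x' ∧ a' ⊆ a ∧ x' \ a = x ∧ E a' x')
    (Y : Finset (Set Ω)) {a : Set Ω} (ha : Region R o a) (haa : a ⊆ a0)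
    (hY : ∀ y ∈ Y, y ∈ R ∧ Disjoint a y ∧ y \ a0 = x0) :
    ∃ a' Δ, Region R o a' ∧ a' ⊆ a ∧ Δ ∈ R ∧ Δ ⊆ a ∧ Disjoint a' Δ ∧
      ∀ y ∈ Y, E a' (y ∪ Δ) := by
  classical
  induction Y using Finset.induction_on with
  | empty =>
    exact ⟨a, ∅, ha, Subset.rfl, hR.empty, empty_subset _, disjoint_bot_right, by simp⟩
  | insert y Y _ ih =>
    obtain ⟨b, Γ, hb, hba, hΓ, hΓa, hbΓ, hE⟩ := ih fun y' hy' => hY y' (Finset.mem_insert_of_mem hy')
    obtain ⟨hyR, hay, hy0⟩ := hY y (Finset.mem_insert_self _ _)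
    rw [Set.disjoint_left] at hay hbΓ
    have hc : Cond R o b (y ∪ Γ) := by
      refine ⟨hb, hR.union _ hyR _ hΓ, ?_⟩
      rw [Set.disjoint_left]
      intro t ht ht2
      rcases ht2 with ht2 | ht2
      · exact hay (hba ht) ht2
      · exact hbΓ ht ht2
    have hc0 : (y ∪ Γ) \ a0 = x0 := by
      rw [← hy0]
      ext t
      have h1 := @hΓa t
      have h2 := @haa t
      simp only [mem_sdiff, mem_union]
      tauto
    obtain ⟨b', x', hc', hb'b, hx', hE'⟩ := hdense b _ hc (hba.trans haa) hc0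
    have hdx := hc'.2.2
    rw [Set.disjoint_left] at hdx
    have hmem : ∀ t, (t ∈ x' ∧ t ∉ b) ↔ (t ∈ y ∨ t ∈ Γ) := by
      intro t
      have : t ∈ x' \ b ↔ t ∈ y ∪ Γ := by rw [hx']
      simpa only [mem_sdiff, mem_union] using this
    refine ⟨b', Γ ∪ (x' ∩ b), hc'.1, hb'b.trans hba, hR.union _ hΓ _ (hR.inter hc'.2.1 hb.1), ?_,
      ?_, ?_⟩
    · intro t ht
      rcases ht with ht | ht
      · exact hΓa ht
      · exact hba ht.2
    · rw [Set.disjoint_left]
      intro t ht ht2
      rcases ht2 with ht2 | ht2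
      · exact hbΓ (hb'b ht) ht2
      · exact hdx ht ht2.1
    · intro y' hy'
      rw [Finset.mem_insert] at hy'
      rcases hy' with rfl | hy'
      · have h1 : y' ∪ (Γ ∪ (x' ∩ b)) = x' := by
          ext t
          have := hmem t
          simp only [mem_union, mem_inter_iff]
          tauto
        rw [h1]
        exact hE'
      · obtain ⟨hyR', hay', -⟩ := hY y' (Finset.mem_insert_of_mem hy')
        rw [Set.disjoint_left] at hay'
        refine hopen b (y' ∪ Γ) b' _ (hE y' hy') ⟨hc'.1, ?_, ?_⟩ hb'b ?_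
        · exact hR.union _ hyR' _ (hR.union _ hΓ _ (hR.inter hc'.2.1 hb.1))
        · rw [Set.disjoint_left]
          intro t ht ht2
          rcases ht2 with ht2 | ht2 | ht2
          · exact hay' (hba (hb'b ht)) ht2
          · exact hbΓ (hb'b ht) ht2
          · exact hdx ht ht2.1
        · ext t
          have h1 := @hbΓ t
          have h2 := @hay' t
          have h3 := @hba t
          simp only [mem_union, mem_inter_iff, mem_sdiff]
          tauto

/-- A stage of the fusion. -/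
structure St (R : Set (Set Ω)) (o : ℕ → Ω) (a0 x0 : Set Ω) where
  a : Set Ω
  X : Finset (Set Ω)
  ha : Region R o a
  haa : a ⊆ a0
  hX : ∀ y ∈ X, y ∈ R ∧ Disjoint a y ∧ y \ a0 = x0

theorem next {R : Set (Set Ω)} (hR : RingSI R) {o : ℕ → Ω} (ho : Function.Injective o)
    (hoR : ∀ n, {o n} ∈ R) {a0 x0 : Set Ω}
    (E : Set Ω → Set Ω → Prop)
    (hopen : ∀ a x a' x', E a x → Cond R o a' x' → a' ⊆ a → x' \ a = x → E a' x')
    (hdense : ∀ a x, Cond R o a x → a ⊆ a0 → x \ a0 = x0 →
      ∃ a' x', Cond R o a' x' ∧ a' ⊆ a ∧ x' \ a = x ∧ E a' x')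
    (s : St R o a0 x0) :
    ∃ (s' : St R o a0 x0) (n : ℕ) (Δ : Set Ω), o n ∈ s.a ∧ Δ ∈ R ∧ Δ ⊆ s.a ∧ o n ∉ Δ ∧
      s'.a ⊆ s.a ∧ o n ∉ s'.a ∧ Disjoint s'.a Δ ∧
      (∀ x ∈ s.X, x ∈ s'.X ∧ x ∪ {o n} ∈ s'.X ∧ x ∪ Δ ∈ s'.X ∧ (x ∪ {o n}) ∪ Δ ∈ s'.X) ∧
      (∀ x ∈ s.X, E s'.a (x ∪ Δ) ∧ E s'.a ((x ∪ {o n}) ∪ Δ)) := by
  classical
  obtain ⟨n, hn⟩ := s.ha.2.nonempty
  have hreg : Region R o (s.a \ {o n}) := by
    refine ⟨hR.diff _ s.ha.1 _ (hoR n), ?_⟩
    have h1 : tr o s.a \ {n} ⊆ tr o (s.a \ {o n}) := by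
      rintro m ⟨hm, hmn⟩
      refine ⟨hm, ?_⟩
      intro h
      exact hmn (ho h)
    exact (s.ha.2.sdiff (finite_singleton n)).mono h1
  have hY : ∀ y ∈ s.X ∪ s.X.image (fun x => x ∪ {o n}),
      y ∈ R ∧ Disjoint (s.a \ {o n}) y ∧ y \ a0 = x0 := by
    intro y hy
    rw [Finset.mem_union, Finset.mem_image] at hy
    rcases hy with hy | ⟨x, hx, rfl⟩
    · obtain ⟨h1, h2, h3⟩ := s.hX y hy
      exact ⟨h1, h2.mono_left sdiff_subset, h3⟩
    · obtain ⟨h1, h2, h3⟩ := s.hX x hx
      refine ⟨hR.union _ h1 _ (hoR n), ?_, ?_⟩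
      · rw [Set.disjoint_left] at h2 ⊢
        intro t ht ht2
        rcases ht2 with ht2 | ht2
        · exact h2 ht.1 ht2
        · exact ht.2 ht2
      · rw [← h3]
        ext t
        simp only [mem_sdiff, mem_union, mem_singleton_iff]
        have : t = o n → t ∈ a0 := by
          rintro rfl
          exact s.haa hn
        tauto
  obtain ⟨a', Δ, ha', ha'a, hΔ, hΔa, hdis, hE⟩ := step hR E hopen hdense _ hreg
    (sdiff_subset.trans s.haa) hY
  have hS' : ∀ y ∈ (s.X ∪ s.X.image (fun x => x ∪ {o n})) ∪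
      (s.X ∪ s.X.image (fun x => x ∪ {o n})).image (fun y => y ∪ Δ),
      y ∈ R ∧ Disjoint a' y ∧ y \ a0 = x0 := by
    intro y hy
    rw [Finset.mem_union] at hy
    rcases hy with hy | hy
    · obtain ⟨h1, h2, h3⟩ := hY y hy
      exact ⟨h1, h2.mono_left ha'a, h3⟩
    · rw [Finset.mem_image] at hy
      obtain ⟨x, hx, rfl⟩ := hy
      obtain ⟨h1, h2, h3⟩ := hY x hx
      refine ⟨hR.union _ h1 _ hΔ, ?_, ?_⟩
      · rw [disjoint_union_right]
        exact ⟨h2.mono_left ha'a, hdis⟩
      · rw [← h3]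
        ext t
        simp only [mem_sdiff, mem_union]
        have : t ∈ Δ → t ∈ a0 := fun h => s.haa (hΔa h).1
        tauto
  refine ⟨⟨a', _, ha', ha'a.trans (sdiff_subset.trans s.haa), hS'⟩, n, Δ, hn, hΔ,
    hΔa.trans sdiff_subset, fun h => (hΔa h).2 rfl, ha'a.trans sdiff_subset,
    fun h => (ha'a h).2 rfl, hdis, ?_, ?_⟩
  · intro x hx
    refine ⟨?_, ?_, ?_, ?_⟩
    · exact Finset.mem_union_left _ (Finset.mem_union_left _ hx)
    · exact Finset.mem_union_left _ (Finset.mem_union_right _ (Finset.mem_image_of_mem _ hx))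
    · exact Finset.mem_union_right _ (Finset.mem_image_of_mem (fun y => y ∪ Δ)
        (Finset.mem_union_left _ hx))
    · exact Finset.mem_union_right _ (Finset.mem_image_of_mem (fun y => y ∪ Δ)
        (Finset.mem_union_right _ (Finset.mem_image_of_mem _ hx)))
  · intro x hx
    exact ⟨hE _ (Finset.mem_union_left _ hx),
      hE _ (Finset.mem_union_right _ (Finset.mem_image_of_mem _ hx))⟩

/-- The fusion lemma. -/
theorem fusion {R : Set (Set Ω)} (hR : RingSI R) {o : ℕ → Ω} (ho : Function.Injective o)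
    (hoR : ∀ n, {o n} ∈ R) {a0 x0 : Set Ω} (h0 : Cond R o a0 x0) (W : ℕ → Set (Set Ω))
    (hdense : ∀ k, ∀ a x, Cond R o a x → a ⊆ a0 → x \ a0 = x0 →
      ∃ a' x', Cond R o a' x' ∧ a' ⊆ a ∧ x' \ a = x ∧ ∀ z ∈ R, z \ a' = x' → z ∉ W k) :
    ∃ a' x', Cond R o a' x' ∧ a' ⊆ a0 ∧ x' \ a0 = x0 ∧
      ∀ z ∈ R, z \ a' = x' → ∀ k, z ∉ W k := by
  classical
  let E : ℕ → Set Ω → Set Ω → Prop := fun k a x => ∀ z ∈ R, z \ a = x → ∀ j, j ≤ k → z ∉ W j
  have hopen : ∀ k, ∀ a x a' x', E k a x → Cond R o a' x' → a' ⊆ a → x' \ a = x → E k a' x' := by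
    intro k a x a' x' hE _ ha hx z hz hzz
    exact hE z hz (cone_mono ha hx hzz)
  have hd : ∀ k, ∀ a x, Cond R o a x → a ⊆ a0 → x \ a0 = x0 →
      ∃ a' x', Cond R o a' x' ∧ a' ⊆ a ∧ x' \ a = x ∧ E k a' x' := by
    intro k
    induction k with
    | zero =>
      intro a x hc ha hx
      obtain ⟨a', x', h1, h2, h3, h4⟩ := hdense 0 a x hc ha hx
      refine ⟨a', x', h1, h2, h3, ?_⟩
      intro z hz hzz j hj
      obtain rfl : j = 0 := by omega
      exact h4 z hz hzz
    | succ k ih =>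
      intro a x hc ha hx
      obtain ⟨a', x', h1, h2, h3, h4⟩ := ih a x hc ha hx
      obtain ⟨a'', x'', g1, g2, g3, g4⟩ := hdense (k + 1) a' x' h1 (h2.trans ha)
        (cone_mono ha hx h3)
      refine ⟨a'', x'', g1, g2.trans h2, cone_mono h2 h3 g3, ?_⟩
      intro z hz hzz j hj
      rcases Nat.lt_or_ge j (k + 1) with hj' | hj'
      · exact h4 z hz (cone_mono g2 g3 hzz) j (by omega)
      · obtain rfl : j = k + 1 := by omega
        exact g4 z hz hzz
  let s0 : St R o a0 x0 := ⟨a0, {x0}, h0.1, Subset.rfl, by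
    intro y hy
    rw [Finset.mem_singleton] at hy
    subst hy
    exact ⟨h0.2.1, h0.2.2, h0.sdiff_eq⟩⟩
  choose nx n Δ hn hΔ hΔa hoΔ haa hona hdis hX hE using
    fun k (s : St R o a0 x0) => next hR ho hoR (E k) (hopen k) (hd k) s
  let S : ℕ → St R o a0 x0 := fun k => Nat.rec s0 (fun k s => nx k s) k
  have hSs : ∀ k, S (k + 1) = nx k (S k) := fun k => rfl
  let A : ℕ → Set Ω := fun k => (S k).a
  let N : ℕ → ℕ := fun k => n k (S k)
  let D : ℕ → Set Ω := fun k => Δ k (S k)
  have fN : ∀ k, o (N k) ∈ A k := fun k => hn k (S k)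
  have fD : ∀ k, D k ∈ R := fun k => hΔ k (S k)
  have fDA : ∀ k, D k ⊆ A k := fun k => hΔa k (S k)
  have fND : ∀ k, o (N k) ∉ D k := fun k => hoΔ k (S k)
  have fA : ∀ k, A (k + 1) ⊆ A k := fun k => haa k (S k)
  have fNA : ∀ k, o (N k) ∉ A (k + 1) := fun k => hona k (S k)
  have fDis : ∀ k, ∀ t, t ∈ A (k + 1) → t ∉ D k := fun k t ht hD =>
    (Set.disjoint_left.mp (hdis k (S k))) ht hD
  have fAR : ∀ k, A k ∈ R := fun k => (S k).ha.1
  have fX : ∀ k, ∀ x ∈ (S k).X, x ∈ (S (k + 1)).X ∧ x ∪ {o (N k)} ∈ (S (k + 1)).X ∧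
      x ∪ D k ∈ (S (k + 1)).X ∧ (x ∪ {o (N k)}) ∪ D k ∈ (S (k + 1)).X := fun k => hX k (S k)
  have fE : ∀ k, ∀ x ∈ (S k).X, E k (A (k + 1)) (x ∪ D k) ∧
      E k (A (k + 1)) ((x ∪ {o (N k)}) ∪ D k) := fun k => hE k (S k)
  have anti : Antitone A := antitone_nat_of_succ_le fA
  have fA0 : A 0 = a0 := rfl
  have hNN : ∀ i j, i < j → o (N i) ∉ A j := fun i j hij h =>
    fNA i (anti (Nat.succ_le_of_lt hij) h)
  have hDD : ∀ i j, i < j → ∀ t, t ∈ A j → t ∉ D i := fun i j hij t ht =>
    fDis i t (anti (Nat.succ_le_of_lt hij) ht)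
  have hNinj : Function.Injective N := by
    intro i j hij
    rcases lt_trichotomy i j with h | h | h
    · exact absurd (hij ▸ fN j) (hNN i j h)
    · exact h
    · exact absurd (hij ▸ fN i) (hNN j i h)
  -- the interpolating set for the `D k`
  obtain ⟨L, hL, y, hy, hy1, hy2, hy3⟩ := hR.interp D (fun k => (A k \ A (k + 1)) \ D k) fD
    (fun k => hR.diff _ (hR.diff _ (fAR k) _ (fAR (k + 1))) _ (fD k))
    (by
      intro i j hij
      rw [Set.disjoint_left]
      intro t hi hj
      rcases Nat.lt_or_gt_of_ne hij with h | h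
      · exact hDD i j h t (fDA j hj) hi
      · exact hDD j i h t (fDA i hi) hj)
    (by
      intro i j
      rw [Set.disjoint_left]
      rintro t hi ⟨⟨hj1, hj2⟩, hj3⟩
      rcases lt_trichotomy i j with h | h | h
      · exact hDD i j h t hj1 hi
      · subst h
        exact hj3 hi
      · exact hj2 (anti (Nat.succ_le_of_lt h) (fDA i hi)))
  obtain ⟨M, hM, c, hc, hc1, hc2, hc3⟩ := hR.interp (fun k => {o (N k)})
    (fun k => (A k \ A (k + 1)) \ {o (N k)}) (fun k => hoR _)
    (fun k => hR.diff _ (hR.diff _ (fAR k) _ (fAR (k + 1))) _ (hoR _))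
    (by
      intro i j hij
      rw [disjoint_singleton]
      intro h
      exact hij (hNinj (ho h)))
    (by
      intro i j
      rw [Set.disjoint_left]
      rintro t hi ⟨⟨hj1, hj2⟩, hj3⟩
      rw [mem_singleton_iff] at hi
      subst hi
      rcases lt_trichotomy i j with h | h | h
      · exact hNN i j h hj1
      · subst h
        exact hj3 rfl
      · exact hj2 (anti (Nat.succ_le_of_lt h) (fN i)))
  simp only [Set.disjoint_left] at hy2 hy3 hc2 hc3
  have hd0 := h0.2.2
  rw [Set.disjoint_left] at hd0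
  refine ⟨(c ∩ a0) \ y, x0 ∪ (y ∩ a0), ⟨⟨?_, ?_⟩, ?_, ?_⟩, ?_, ?_, ?_⟩
  · exact hR.diff _ (hR.inter hc h0.1.1) _ hy
  · have h1 : N '' M ⊆ tr o ((c ∩ a0) \ y) := by
      rintro _ ⟨k, hk, rfl⟩
      refine ⟨⟨hc1 k hk rfl, anti (Nat.zero_le k) (fN k)⟩, ?_⟩
      exact hy3 k ⟨⟨fN k, fNA k⟩, fND k⟩
    exact (hM.image hNinj.injOn).mono h1
  · exact hR.union _ h0.2.1 _ (hR.inter hy h0.1.1)
  · rw [Set.disjoint_left]
    rintro t ⟨⟨-, h1⟩, h2⟩ h3
    rcases h3 with h3 | h3
    · exact hd0 h1 h3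
    · exact h2 h3.1
  · intro t ht
    exact ht.1.2
  · ext t
    have := @hd0 t
    simp only [mem_sdiff, mem_union, mem_inter_iff]
    tauto
  · intro z hz hzz
    have hmem : ∀ t, (t ∈ z ∧ ¬ ((t ∈ c ∧ t ∈ a0) ∧ t ∉ y)) ↔ (t ∈ x0 ∨ (t ∈ y ∧ t ∈ a0)) := by
      intro t
      have : t ∈ z \ ((c ∩ a0) \ y) ↔ t ∈ x0 ∪ (y ∩ a0) := by rw [hzz]
      simpa only [mem_sdiff, mem_union, mem_inter_iff] using this
    have hstep : ∀ k t, (t ∈ z ∧ t ∉ A (k + 1)) ↔
        ((t ∈ z ∧ t ∉ A k) ∨ (t = o (N k) ∧ t ∈ z) ∨ (k ∈ L ∧ t ∈ D k)) := by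
      intro k t
      by_cases h1 : t ∈ A k
      · by_cases h2 : t ∈ A (k + 1)
        · have h3 : t ≠ o (N k) := by
            rintro rfl
            exact fNA k h2
          have h4 := fDis k t h2
          tauto
        · have ha0 : t ∈ a0 := anti (Nat.zero_le k) h1
          have hx0 : t ∉ x0 := hd0 ha0
          by_cases h3 : t = o (N k)
          · have h4 : t ∉ D k := by
              rw [h3]
              exact fND k
            tauto
          · have h4 : t ∉ c := hc3 k ⟨⟨h1, h2⟩, h3⟩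
            have h5 : t ∈ y ↔ (k ∈ L ∧ t ∈ D k) := by
              by_cases h6 : t ∈ D k
              · by_cases h7 : k ∈ L
                · have := hy1 k h7 h6
                  tauto
                · have := hy2 k h7 h6
                  tauto
              · have := hy3 k ⟨⟨h1, h2⟩, h6⟩
                tauto
            have h8 := hmem t
            tauto
      · have h2 : t ∉ A (k + 1) := fun h => h1 (fA k h)
        have h3 : t ≠ o (N k) := by
          rintro rfl
          exact h1 (fN k)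
        have h4 : t ∉ D k := fun h => h1 (fDA k h)
        tauto
    have hXz : ∀ k, z \ A k ∈ (S k).X := by
      intro k
      induction k with
      | zero =>
        have : z \ A 0 = x0 := by
          ext t
          have h1 := hmem t
          have h2 := @hd0 t
          rw [fA0]
          simp only [mem_sdiff]
          tauto
        rw [this]
        exact Finset.mem_singleton_self x0
      | succ k ih =>
        obtain ⟨g1, g2, g3, g4⟩ := fX k _ ih
        by_cases h1 : o (N k) ∈ z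
        · by_cases h2 : k ∈ L
          · convert g4 using 1
            ext t
            have := hstep k t
            simp only [mem_sdiff, mem_union, mem_singleton_iff]
            rw [this]
            have : t = o (N k) → t ∈ z := by
              rintro rfl
              exact h1
            tauto
          · convert g2 using 1
            ext t
            have := hstep k t
            simp only [mem_sdiff, mem_union, mem_singleton_iff]
            rw [this]
            have : t = o (N k) → t ∈ z := by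
              rintro rfl
              exact h1
            tauto
        · by_cases h2 : k ∈ L
          · convert g3 using 1
            ext t
            have := hstep k t
            simp only [mem_sdiff, mem_union]
            rw [this]
            have : t = o (N k) → t ∉ z := by
              rintro rfl
              exact h1
            tauto
          · convert g1 using 1
            ext t
            have := hstep k t
            simp only [mem_sdiff]
            rw [this]
            have : t = o (N k) → t ∉ z := by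
              rintro rfl
              exact h1
            tauto
    intro j
    obtain ⟨k, hk, hjk⟩ := hL.exists_gt j
    have hEk := fE k _ (hXz k)
    by_cases h1 : o (N k) ∈ z
    · refine hEk.2 z hz ?_ j hjk.le
      ext t
      have := hstep k t
      simp only [mem_sdiff, mem_union, mem_singleton_iff]
      rw [this]
      have : t = o (N k) → t ∈ z := by
        rintro rfl
        exact h1
      tauto
    · refine hEk.1 z hz ?_ j hjk.le
      ext t
      have := hstep k t
      simp only [mem_sdiff, mem_union]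
      rw [this]
      have : t = o (N k) → t ∉ z := by
        rintro rfl
        exact h1
      tauto

/-- Countable unions of decided sets are decided. -/
theorem Decided.iUnion {R : Set (Set Ω)} (hR : RingSI R) {o : ℕ → Ω}
    (ho : Function.Injective o) (hoR : ∀ n, {o n} ∈ R) {W : ℕ → Set (Set Ω)}
    (hW : ∀ k, Decided R o (W k)) : Decided R o (⋃ k, W k) := by
  intro a x hc
  by_cases h : ∃ k a' x', Cond R o a' x' ∧ a' ⊆ a ∧ x' \ a = x ∧ ∀ z ∈ R, z \ a' = x' → z ∈ W k
  · obtain ⟨k, a', x', h1, h2, h3, h4⟩ := h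
    exact ⟨a', x', h1, h2, h3, Or.inl fun z hz hzz => mem_iUnion.mpr ⟨k, h4 z hz hzz⟩⟩
  · push Not at h
    obtain ⟨a', x', h1, h2, h3, h4⟩ := fusion hR ho hoR hc W (by
      intro k b y hb hba hy
      obtain ⟨b', y', g1, g2, g3, g4⟩ := hW k b y hb
      refine ⟨b', y', g1, g2, g3, ?_⟩
      rcases g4 with g4 | g4
      · exfalso
        obtain ⟨z, hz, hzz, hzW⟩ := h k b' y' g1 (g2.trans hba) (cone_mono hba hy g3)
        exact hzW (g4 z hz hzz)
      · exact g4)
    refine ⟨a', x', h1, h2, h3, Or.inr ?_⟩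
    intro z hz hzz hmem
    rw [mem_iUnion] at hmem
    obtain ⟨k, hk⟩ := hmem
    exact h4 z hz hzz k hk

theorem Decided.compl {R : Set (Set Ω)} {o : ℕ → Ω} {W : Set (Set Ω)}
    (hW : Decided R o W) : Decided R o Wᶜ := by
  intro a x hc
  obtain ⟨a', x', h1, h2, h3, h4⟩ := hW a x hc
  refine ⟨a', x', h1, h2, h3, ?_⟩
  rcases h4 with h4 | h4
  · exact Or.inr fun z hz hzz h => h (h4 z hz hzz)
  · exact Or.inl fun z hz hzz => h4 z hz hzz

theorem Decided.empty {R : Set (Set Ω)} {o : ℕ → Ω} : Decided R o (∅ : Set (Set Ω)) := by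
  intro a x hc
  exact ⟨a, x, hc, Subset.rfl, hc.sdiff_eq, Or.inr fun z _ _ h => h⟩

/-- The sigma-algebra of decided sets. -/
@[reducible] def decidedSpace {R : Set (Set Ω)} (hR : RingSI R) {o : ℕ → Ω}
    (ho : Function.Injective o) (hoR : ∀ n, {o n} ∈ R) : MeasurableSpace (Set Ω) where
  MeasurableSet' := Decided R o
  measurableSet_empty := Decided.empty
  measurableSet_compl := fun _ h => h.compl
  measurableSet_iUnion := fun _ h => Decided.iUnion hR ho hoR h

end Pool.Agent.Lib.MP_245eb3_an.SI
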