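import Mathlib

/-!
Rings of sets with the subsequential interpolation property, and a fusion argument in the
style of Silver forcing.
-/

set_option autoImplicit false

open Set

namespace Pool.Agent.Lib.MP_245eb3_an.SI

universe u v

variable {Ω : Type u}

/-- A ring of subsets of `Ω` with the subsequential interpolation property. -/
structure RingSI (R : Set (Set Ω)) : Prop where
  empty : ∅ ∈ R
  union : ∀ s ∈ R, ∀ t ∈ R, s ∪ t ∈ R
  diff : ∀ s ∈ R, ∀ t ∈ R, s \ t ∈ R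
  interp : ∀ a b : ℕ → Set Ω, (∀ n, a n ∈ R) → (∀ n, b n ∈ R) →
    (∀ i j, i ≠ j → Disjoint (a i) (a j)) → (∀ i j, Disjoint (a i) (b j)) →
    ∃ M : Set ℕ, M.Infinite ∧ ∃ c ∈ R, (∀ n ∈ M, a n ⊆ c) ∧
      (∀ n, n ∉ M → Disjoint (a n) c) ∧ ∀ m, Disjoint (b m) c

theorem RingSI.inter {R : Set (Set Ω)} (hR : RingSI R) {s t : Set Ω} (hs : s ∈ R) (ht : t ∈ R) :
    s ∩ t ∈ R := by
  have h := hR.diff s hs (s \ t) (hR.diff s hs t ht)
  have h2 : s \ (s \ t) = s ∩ t := by
    ext x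
    simp only [mem_sdiff, mem_inter_iff, not_and, not_not]
    tauto
  rwa [h2] at h

/-- The trace of a set on the sequence `o`. -/
def tr (o : ℕ → Ω) (x : Set Ω) : Set ℕ := o ⁻¹' x

/-- A region: a member of the ring with infinite trace. -/
def Region (R : Set (Set Ω)) (o : ℕ → Ω) (a : Set Ω) : Prop := a ∈ R ∧ (tr o a).Infinite

/-- A condition. -/
def Cond (R : Set (Set Ω)) (o : ℕ → Ω) (a x : Set Ω) : Prop :=
  Region R o a ∧ x ∈ R ∧ Disjoint a x

/-- The set `W` is decided: below every condition there is a condition such that all members of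
the cone are in `W`, or all of them are outside `W`. -/
def Decided (R : Set (Set Ω)) (o : ℕ → Ω) (W : Set (Set Ω)) : Prop :=
  ∀ a x, Cond R o a x → ∃ a' x', Cond R o a' x' ∧ a' ⊆ a ∧ x' \ a = x ∧
    ((∀ z ∈ R, z \ a' = x' → z ∈ W) ∨ (∀ z ∈ R, z \ a' = x' → z ∉ W))

/-- Splitting a region into two disjoint regions. -/
theorem split {R : Set (Set Ω)} (hR : RingSI R) {o : ℕ → Ω} (ho : Function.Injective o)
    (hoR : ∀ n, {o n} ∈ R) {a : Set Ω} (ha : Region R o a) :
    ∃ a1 a2, Region R o a1 ∧ Region R o a2 ∧ a1 ⊆ a ∧ a2 ⊆ a ∧ Disjoint a1 a2 := by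
  obtain ⟨haR, hinf⟩ := ha
  let f := hinf.natEmbedding
  have hf : ∀ i, o (f i) ∈ a := fun i => (f i).2
  have hfi : ∀ i j, (f i : ℕ) = f j → i = j := fun i j h => f.injective (Subtype.ext h)
  obtain ⟨M, hM, c, hc, h1, h2, h3⟩ := hR.interp (fun n => {o (f (2 * n))})
    (fun n => {o (f (2 * n + 1))}) (fun n => hoR _) (fun n => hoR _)
    (by
      intro i j hij
      rw [disjoint_singleton]
      intro h
      have := hfi _ _ (ho h)
      omega)
    (by
      intro i j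
      rw [disjoint_singleton]
      intro h
      have := hfi _ _ (ho h)
      omega)
  refine ⟨a ∩ c, a \ c, ⟨hR.inter haR hc, ?_⟩, ⟨hR.diff a haR c hc, ?_⟩, inter_subset_left,
    sdiff_subset, ?_⟩
  · have h4 : (fun n => (f (2 * n) : ℕ)) '' M ⊆ tr o (a ∩ c) := by
      rintro _ ⟨n, hn, rfl⟩
      exact ⟨hf _, h1 n hn rfl⟩
    refine Set.Infinite.mono h4 (hM.image ?_)
    intro i _ j _ h
    have := hfi _ _ h
    omega
  · have h4 : (fun n => (f (2 * n + 1) : ℕ)) '' univ ⊆ tr o (a \ c) := by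
      rintro _ ⟨n, -, rfl⟩
      refine ⟨hf _, ?_⟩
      have := h3 n
      rw [disjoint_singleton_left] at this
      exact this
    refine Set.Infinite.mono h4 (infinite_univ.image ?_)
    intro i _ j _ h
    have := hfi _ _ h
    omega
  · exact disjoint_sdiff_right.mono_left inter_subset_right

/-- There is a region. -/
theorem exists_region {R : Set (Set Ω)} (hR : RingSI R) {o : ℕ → Ω} (ho : Function.Injective o)
    (hoR : ∀ n, {o n} ∈ R) : ∃ a, Region R o a := by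
  obtain ⟨M, hM, c, hc, h1, -, -⟩ := hR.interp (fun n => {o n}) (fun _ => ∅)
    (fun n => hoR _) (fun n => hR.empty)
    (by
      intro i j hij
      rw [disjoint_singleton]
      exact fun h => hij (ho h))
    (by
      intro i j
      exact disjoint_bot_right)
  exact ⟨c, hc, hM.mono fun n hn => h1 n hn rfl⟩

/-- A bounded additive set function is small on some subregion. -/
theorem small {R : Set (Set Ω)} (hR : RingSI R) {o : ℕ → Ω} (ho : Function.Injective o)
    (hoR : ∀ n, {o n} ∈ R) {ν : Set Ω → ℝ}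
    (hadd : ∀ s ∈ R, ∀ t ∈ R, Disjoint s t → ν (s ∪ t) = ν s + ν t)
    {C : ℝ} (hbd : ∀ s ∈ R, |ν s| ≤ C) {ε : ℝ} (hε : 0 < ε) {a : Set Ω} (ha : Region R o a) :
    ∃ a', Region R o a' ∧ a' ⊆ a ∧ ∀ y ∈ R, y ⊆ a' → |ν y| ≤ ε := by
  have hν0 : ν ∅ = 0 := by
    have := hadd ∅ hR.empty ∅ hR.empty (disjoint_bot_left)
    rw [union_empty] at this
    linarith
  have key : ∀ k : ℕ, ∃ a', Region R o a' ∧ a' ⊆ a ∧ ∀ y ∈ R, ∀ y' ∈ R, y ⊆ a' → y' ⊆ a' →
      Disjoint y y' → ν y - ν y' ≤ 2 * C / 2 ^ k := by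
    intro k
    induction k with
    | zero =>
      refine ⟨a, ha, Subset.rfl, ?_⟩
      intro y hy y' hy' _ _ _
      have h1 := abs_le.mp (hbd y hy)
      have h2 := abs_le.mp (hbd y' hy')
      simp only [pow_zero, div_one]
      linarith [h1.2, h2.1]
    | succ k ih =>
      obtain ⟨b, hb, hba, hP⟩ := ih
      obtain ⟨b1, b2, hb1, hb2, h1, h2, hdis⟩ := split hR ho hoR hb
      by_contra hcon
      push Not at hcon
      obtain ⟨y1, hy1, y1', hy1', hs1, hs1', hd1, hlt1⟩ := hcon b1 hb1 (h1.trans hba)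
      obtain ⟨y2, hy2, y2', hy2', hs2, hs2', hd2, hlt2⟩ := hcon b2 hb2 (h2.trans hba)
      have hA : Disjoint y1 y2 := hdis.mono hs1 hs2
      have hB : Disjoint y1' y2' := hdis.mono hs1' hs2'
      have h3 := hP (y1 ∪ y2) (hR.union _ hy1 _ hy2) (y1' ∪ y2') (hR.union _ hy1' _ hy2')
        (union_subset (hs1.trans h1) (hs2.trans h2))
        (union_subset (hs1'.trans h1) (hs2'.trans h2))
        (by
          rw [disjoint_union_left, disjoint_union_right, disjoint_union_right]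
          exact ⟨⟨hd1, hdis.mono hs1 hs2'⟩, ⟨(hdis.mono hs1' hs2).symm, hd2⟩⟩)
      rw [hadd _ hy1 _ hy2 hA, hadd _ hy1' _ hy2' hB] at h3
      have h4 : 2 * C / 2 ^ k = 2 * C / 2 ^ (k + 1) + 2 * C / 2 ^ (k + 1) := by
        rw [pow_succ]
        ring
      linarith
  obtain ⟨k, hk⟩ : ∃ k : ℕ, 2 * C / 2 ^ k ≤ ε := by
    obtain ⟨k, hk⟩ := pow_unbounded_of_one_lt (2 * C / ε) (by norm_num : (1 : ℝ) < 2)
    refine ⟨k, ?_⟩
    rw [div_lt_iff₀ hε] at hk
    rw [div_le_iff₀ (by positivity)]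
    linarith [mul_comm ε ((2 : ℝ) ^ k)]
  obtain ⟨a', ha', hsub, hP⟩ := key k
  refine ⟨a', ha', hsub, ?_⟩
  intro y hy hya
  rw [abs_le]
  constructor
  · have := hP ∅ hR.empty y hy (empty_subset _) hya disjoint_bot_left
    linarith
  · have := hP y hy ∅ hR.empty hya (empty_subset _) disjoint_bot_right
    linarith

/-- Finitely many bounded additive set functions are small on some subregion. -/
theorem small_finset {R : Set (Set Ω)} (hR : RingSI R) {o : ℕ → Ω} (ho : Function.Injective o)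
    (hoR : ∀ n, {o n} ∈ R) {ι : Type v} (s : Finset ι) {ν : ι → Set Ω → ℝ}
    (hadd : ∀ i, ∀ s ∈ R, ∀ t ∈ R, Disjoint s t → ν i (s ∪ t) = ν i s + ν i t)
    (hbd : ∀ i, ∃ C, ∀ s ∈ R, |ν i s| ≤ C) {ε : ℝ} (hε : 0 < ε) {a : Set Ω}
    (ha : Region R o a) :
    ∃ a', Region R o a' ∧ a' ⊆ a ∧ ∀ i ∈ s, ∀ y ∈ R, y ⊆ a' → |ν i y| ≤ ε := by
  classical
  induction s using Finset.induction_on with
  | empty => exact ⟨a, ha, Subset.rfl, by simp⟩
  | insert i s _ ih =>
    obtain ⟨b, hb, hba, h⟩ := ih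
    obtain ⟨C, hC⟩ := hbd i
    obtain ⟨b', hb', hbb, h'⟩ := small hR ho hoR (hadd i) hC hε hb
    refine ⟨b', hb', hbb.trans hba, ?_⟩
    intro j hj y hy hyb
    rw [Finset.mem_insert] at hj
    rcases hj with rfl | hj
    · exact h' y hy hyb
    · exact h j hj y hy (hyb.trans hbb)

end Pool.Agent.Lib.MP_245eb3_an.SI
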